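import Pool.Agent.H906.PC.Split

/-! # Abundance for compact Kähler manifolds and orbifolds with totally split tangent bundle

Let `H` be the upper half-plane and let a group `Δ` act by biholomorphic maps, properly
discontinuously and with compact quotient, on `H^a × ℂ^b`. Fixed points are allowed, so that
`X = (H^a × ℂ^b) / Δ` is a compact complex manifold or orbifold of dimension `n = a + b`; its
canonical bundle is nef. We assume that a subgroup of finite index preserves the `n` line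
subbundles of the tangent bundle given by the factors: some finite etale cover of `X` has a
tangent bundle which is the direct sum of `n` line bundles. By the theorem of Brunella, Pereira
and Touzet this is the case for every compact Kähler manifold whose canonical bundle is nef and
whose tangent bundle splits into line bundles on some finite etale cover.

We prove that if `X` is Kähler then its canonical bundle is semiample. No projectivity is
assumed, and no relation between the Kähler metric and the splitting. Without the Kähler metric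
the statement fails (Inoue surfaces, the manifolds of Oeljeklaus and Toma). -/

open Matrix
open scoped ComplexOrder

namespace Pool.Agent.Results.MP_97d78d_ag.SplitTangentBundle

/-- The space `ℂ^a × ℂ^b`. -/
abbrev Pt (a b : ℕ) := Fin a ⊕ Fin b → ℂ

/-- The complex manifold `H^a × ℂ^b`. -/
def Dom (a b : ℕ) : Set (Pt a b) := {x | ∀ i : Fin a, 0 < (x (Sum.inl i)).im}

/-- The complex Jacobian matrix `(∂ f_k / ∂ x_i)` of `f`. -/
noncomputable def Jac {a b : ℕ} (f : Pt a b → Pt a b) (x : Pt a b) :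
    Matrix (Fin a ⊕ Fin b) (Fin a ⊕ Fin b) ℂ :=
  Matrix.of fun k i => fderiv ℂ f x (Pi.single i 1) k

/-- The group `Δ` acts on `H^a × ℂ^b` by holomorphic maps, properly discontinuously and with
compact quotient. -/
structure IsUniform {a b : ℕ} {Δ : Type*} [Group Δ] (ρ : Δ → Pt a b → Pt a b) : Prop where
  maps : ∀ δ, ∀ x ∈ Dom a b, ρ δ x ∈ Dom a b
  one : ∀ x ∈ Dom a b, ρ 1 x = x
  mul : ∀ δ ε, ∀ x ∈ Dom a b, ρ (δ * ε) x = ρ δ (ρ ε x)
  hol : ∀ δ, DifferentiableOn ℂ (ρ δ) (Dom a b)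
  properlyDiscontinuous : ∀ K ⊆ Dom a b, IsCompact K → {δ : Δ | (ρ δ '' K ∩ K).Nonempty}.Finite
  cocompact : ∃ K ⊆ Dom a b, IsCompact K ∧ ∀ x ∈ Dom a b, ∃ δ, ρ δ x ∈ K

/-- The elements of `Δ0` preserve each of the `a + b` coordinate line subbundles of the tangent
bundle: their Jacobian matrices are diagonal. -/
def PreservesSplitting {a b : ℕ} {Δ : Type*} [Group Δ] (ρ : Δ → Pt a b → Pt a b)
    (Δ0 : Subgroup Δ) : Prop :=
  ∀ δ ∈ Δ0, ∀ x ∈ Dom a b, ∀ k i, k ≠ i → Jac (ρ δ) x k i = 0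

/-- The derivative `∂ f / ∂ x_k = (∂ f / ∂ Re x_k - i ∂ f / ∂ Im x_k) / 2`. -/
noncomputable def partialZ {a b : ℕ} (k : Fin a ⊕ Fin b) (f : Pt a b → ℂ) (x : Pt a b) : ℂ :=
  (fderiv ℝ f x (Pi.single k 1) - Complex.I * fderiv ℝ f x (Pi.single k Complex.I)) / 2

/-- `i ∑ g_{jk} d x_j ∧ d \bar x_k` is a Kähler form on the quotient: the matrix `g` is of class
`C^1` and positive definite, the form is closed and it is invariant under `Δ`. -/
structure IsKahler {a b : ℕ} {Δ : Type*} [Group Δ] (ρ : Δ → Pt a b → Pt a b)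
    (g : Pt a b → Matrix (Fin a ⊕ Fin b) (Fin a ⊕ Fin b) ℂ) : Prop where
  smooth : ∀ i j, ContDiffOn ℝ 1 (fun x => g x i j) (Dom a b)
  pos : ∀ x ∈ Dom a b, (g x).PosDef
  closed : ∀ x ∈ Dom a b, ∀ i j k,
    partialZ i (fun y => g y j k) x = partialZ j (fun y => g y i k) x
  invariant : ∀ δ, ∀ x ∈ Dom a b,
    (Jac (ρ δ) x)ᵀ * g (ρ δ x) * (Jac (ρ δ) x).map star = g x

/-- `F (dx_1 ∧ ... ∧ dx_n)^l` is a section of the `l`-th power of the canonical bundle of the
quotient. -/
def IsPluricanonical {a b : ℕ} {Δ : Type*} [Group Δ] (ρ : Δ → Pt a b → Pt a b) (l : ℕ)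
    (F : Pt a b → ℂ) : Prop :=
  DifferentiableOn ℂ F (Dom a b) ∧
    ∀ δ, ∀ x ∈ Dom a b, F (ρ δ x) * (Jac (ρ δ) x).det ^ l = F x

theorem jac_eq {a b : ℕ} (f : Pt a b → Pt a b) (x : Pt a b) : Jac f x = H906.PC.Jm f x := by
  ext k i
  have h : ∀ h1 h2 : DecidableEq (Fin a ⊕ Fin b),
      @Pi.single (Fin a ⊕ Fin b) (fun _ => ℂ) _ h1 i 1 =
        @Pi.single (Fin a ⊕ Fin b) (fun _ => ℂ) _ h2 i 1 := by
    intro h1 h2
    rw [Subsingleton.elim h1 h2]
  simp only [Jac, H906.PC.Jm, Matrix.of_apply]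
  exact congrArg (fun v => fderiv ℂ f x v k) (h _ _)

theorem det_eq {n : Type*} [Fintype n] (h1 h2 : DecidableEq n) (M : Matrix n n ℂ) :
    @Matrix.det n h1 _ ℂ _ M = @Matrix.det n h2 _ ℂ _ M := by
  rw [Subsingleton.elim h1 h2]

theorem partialZ_eq {a b : ℕ} (k : Fin a ⊕ Fin b) (f : Pt a b → ℂ) (x : Pt a b)
    [h : DecidableEq (Fin a ⊕ Fin b)] : partialZ k f x = H906.PC.wd k f x := by
  have : h = instDecidableEqSum := Subsingleton.elim _ _
  subst this
  rfl

/-- **Abundance.** If the compact quotient `X` of `H^a × ℂ^b` by `Δ` is Kähler and its tangent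
bundle splits into the line bundles given by the factors on a finite etale cover, then the
canonical bundle of `X` is semiample: some power of it is globally generated. -/
theorem result {a b : ℕ} {Δ : Type*} [Group Δ] (ρ : Δ → Pt a b → Pt a b) (hρ : IsUniform ρ)
    (Δ0 : Subgroup Δ) (hfin : Δ0.FiniteIndex) (hsplit : PreservesSplitting ρ Δ0)
    (g : Pt a b → Matrix (Fin a ⊕ Fin b) (Fin a ⊕ Fin b) ℂ) (hg : IsKahler ρ g) :
    ∃ l : ℕ, 1 ≤ l ∧ ∀ x ∈ Dom a b, ∃ F, IsPluricanonical ρ l F ∧ F x ≠ 0 := by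
  have h1 : H906.PC.HolAction ρ := ⟨hρ.maps, hρ.one, hρ.mul, hρ.hol⟩
  have h2 : H906.PC.IsKahlerForm g := by
    refine ⟨hg.smooth, hg.pos, fun x hx i j k => ?_⟩
    rw [← partialZ_eq, ← partialZ_eq]
    exact hg.closed x hx i j k
  have h3 : H906.PC.Splits ρ Δ0 := by
    intro δ hδ x hx k i hki
    rw [← jac_eq]
    exact hsplit δ hδ x hx k i hki
  have h4 : H906.PC.InvForm ρ g := by
    intro δ x hx
    rw [← jac_eq]
    exact hg.invariant δ x hx
  obtain ⟨l, hl, h5⟩ := H906.PC.semiample' h1 hρ.properlyDiscontinuous hρ.cocompact hfin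
    (H906.PC.exists_act h1 h3) h2 h4
  refine ⟨l, hl, fun x hx => ?_⟩
  obtain ⟨F, ⟨hF1, hF2⟩, hF3⟩ := h5 x hx
  refine ⟨F, ⟨hF1, fun δ y hy => ?_⟩, hF3⟩
  have h6 := hF2 δ y hy
  rw [← jac_eq, det_eq _ instDecidableEqSum] at h6
  exact h6

end Pool.Agent.Results.MP_97d78d_ag.SplitTangentBundle
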