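import Pool.Agent.H906.PC.Weak8

/-! # Class `C` manifolds covered by `H^a × ℂ^b`: the Kodaira dimension is nonnegative

Let `H` be the upper half-plane and let a group `Δ` act by biholomorphic maps, properly
discontinuously and with compact quotient, on `H^a × ℂ^b`. If the action is free then
`X = (H^a × ℂ^b) / Δ` is a compact complex manifold. It contains no rational curve, since such a
curve would lift to `H^a × ℂ^b`; hence it is not uniruled, and the problem asks to show that
`κ(X) ≥ 0` if `X` is in class `C`.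

We prove this, and more precisely that the canonical bundle of `X` is semiample, if a subgroup of
finite index of `Δ` preserves the `n = a + b` line subbundles of the tangent bundle given by the
factors, that is if some finite etale cover of `X` has a tangent bundle which splits accordingly.

Only the following consequence of the membership in class `C` is used. If `π : Y → X` is a
modification with `Y` compact Kähler, and `ω` is a Kähler form on `Y`, then `T = π_* ω` is a closed
positive current of bidegree `(1, 1)` on `X` whose coefficients are locally integrable functions and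
which is a Kähler form on the complement of an analytic subset, and therefore positive definite
almost everywhere. No smooth Kähler metric is assumed, and `T` need not be compatible with the
splitting. Without a current the statement fails (Inoue surfaces, the manifolds of Oeljeklaus and
Toma: `κ(X) = -∞`, `X` is not uniruled and not in class `C`). -/

open Matrix MeasureTheory
open scoped ComplexOrder ContDiff

namespace Pool.Agent.H906.Old.SplitTangentBundleClassC

/-- The space `ℂ^a × ℂ^b`. -/
abbrev Pt (a b : ℕ) := Fin a ⊕ Fin b → ℂ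

/-- The complex manifold `H^a × ℂ^b`. -/
def Dom (a b : ℕ) : Set (Pt a b) := {x | ∀ i : Fin a, 0 < (x (Sum.inl i)).im}

/-- The complex Jacobian matrix `(∂ f_k / ∂ x_i)` of `f`. -/
noncomputable def Jac {a b : ℕ} (f : Pt a b → Pt a b) (x : Pt a b) :
    Matrix (Fin a ⊕ Fin b) (Fin a ⊕ Fin b) ℂ :=
  Matrix.of fun k i => fderiv ℂ f x (Pi.single i 1) k

/-- The group `Δ` acts on `H^a × ℂ^b` by holomorphic maps, properly discontinuously and with
compact quotient. -/
structure IsUniform {a b : ℕ} {Δ : Type*} [Group Δ] (ρ : Δ → Pt a b → Pt a b) : Prop where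
  maps : ∀ δ, ∀ x ∈ Dom a b, ρ δ x ∈ Dom a b
  one : ∀ x ∈ Dom a b, ρ 1 x = x
  mul : ∀ δ ε, ∀ x ∈ Dom a b, ρ (δ * ε) x = ρ δ (ρ ε x)
  hol : ∀ δ, DifferentiableOn ℂ (ρ δ) (Dom a b)
  properlyDiscontinuous : ∀ K ⊆ Dom a b, IsCompact K → {δ : Δ | (ρ δ '' K ∩ K).Nonempty}.Finite
  cocompact : ∃ K ⊆ Dom a b, IsCompact K ∧ ∀ x ∈ Dom a b, ∃ δ, ρ δ x ∈ K

/-- The elements of `Δ0` preserve each of the `a + b` coordinate line subbundles of the tangent
bundle: their Jacobian matrices are diagonal. -/
def PreservesSplitting {a b : ℕ} {Δ : Type*} [Group Δ] (ρ : Δ → Pt a b → Pt a b)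
    (Δ0 : Subgroup Δ) : Prop :=
  ∀ δ ∈ Δ0, ∀ x ∈ Dom a b, ∀ k i, k ≠ i → Jac (ρ δ) x k i = 0

/-- The derivative `∂ f / ∂ x_k = (∂ f / ∂ Re x_k - i ∂ f / ∂ Im x_k) / 2`. -/
noncomputable def partialZ {a b : ℕ} (k : Fin a ⊕ Fin b) (f : Pt a b → ℂ) (x : Pt a b) : ℂ :=
  (fderiv ℝ f x (Pi.single k 1) - Complex.I * fderiv ℝ f x (Pi.single k Complex.I)) / 2

/-- `T = i ∑ T_{jk} d x_j ∧ d \bar x_k` is a closed positive current of bidegree `(1, 1)` on the
quotient `X` of `H^a × ℂ^b`, positive definite almost everywhere: the coefficients are locally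
integrable functions, the matrix `T` is positive definite almost everywhere, `∂ T = 0` in the sense
of currents (hence `d T = 0`, as `T` is real) and `T` is invariant under `Δ`. Every class `C`
manifold carries such a current. -/
structure IsPositiveClosedCurrent {a b : ℕ} {Δ : Type*} [Group Δ] (ρ : Δ → Pt a b → Pt a b)
    (T : Pt a b → Matrix (Fin a ⊕ Fin b) (Fin a ⊕ Fin b) ℂ) : Prop where
  integrable : ∀ K ⊆ Dom a b, IsCompact K → ∀ i j, IntegrableOn (fun x => T x i j) K
  pos : ∀ᵐ x, x ∈ Dom a b → (T x).PosDef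
  closed : ∀ χ : Pt a b → ℂ, ContDiff ℝ ∞ χ → HasCompactSupport χ → tsupport χ ⊆ Dom a b →
    ∀ i j k, ∫ x, T x j k * partialZ i χ x = ∫ x, T x i k * partialZ j χ x
  invariant : ∀ δ, ∀ᵐ x, x ∈ Dom a b →
    (Jac (ρ δ) x)ᵀ * T (ρ δ x) * (Jac (ρ δ) x).map star = T x

/-- `F (dx_1 ∧ ... ∧ dx_n)^l` is a section of the `l`-th power of the canonical bundle of the
quotient. -/
def IsPluricanonical {a b : ℕ} {Δ : Type*} [Group Δ] (ρ : Δ → Pt a b → Pt a b) (l : ℕ)
    (F : Pt a b → ℂ) : Prop :=
  DifferentiableOn ℂ F (Dom a b) ∧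
    ∀ δ, ∀ x ∈ Dom a b, F (ρ δ x) * (Jac (ρ δ) x).det ^ l = F x

theorem jac_eq {a b : ℕ} (f : Pt a b → Pt a b) (x : Pt a b) : Jac f x = H906.PC.Jm f x := by
  ext k i
  have h : ∀ h1 h2 : DecidableEq (Fin a ⊕ Fin b),
      @Pi.single (Fin a ⊕ Fin b) (fun _ => ℂ) _ h1 i 1 =
        @Pi.single (Fin a ⊕ Fin b) (fun _ => ℂ) _ h2 i 1 := by
    intro h1 h2
    rw [Subsingleton.elim h1 h2]
  simp only [Jac, H906.PC.Jm, Matrix.of_apply]
  exact congrArg (fun v => fderiv ℂ f x v k) (h _ _)

theorem det_eq {n : Type*} [Fintype n] (h1 h2 : DecidableEq n) (M : Matrix n n ℂ) :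
    @Matrix.det n h1 _ ℂ _ M = @Matrix.det n h2 _ ℂ _ M := by
  rw [Subsingleton.elim h1 h2]

theorem partialZ_eq {a b : ℕ} (k : Fin a ⊕ Fin b) (f : Pt a b → ℂ) (x : Pt a b)
    [h : DecidableEq (Fin a ⊕ Fin b)] : partialZ k f x = H906.PC.wd k f x := by
  have : h = instDecidableEqSum := Subsingleton.elim _ _
  subst this
  rfl

/-- **Nonnegativity of the Kodaira dimension.** If the compact quotient `X` of `H^a × ℂ^b` by `Δ`
carries a closed positive `(1, 1)`-current which is positive definite almost everywhere, in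
particular if `X` is in class `C`, and if the tangent bundle of a finite etale cover of `X` splits
into the line bundles given by the factors, then the canonical bundle of `X` is semiample: for some
`l ≥ 1` its `l`-th power is globally generated. In particular `κ(X) ≥ 0`. -/
theorem result {a b : ℕ} {Δ : Type*} [Group Δ] (ρ : Δ → Pt a b → Pt a b) (hρ : IsUniform ρ)
    (Δ0 : Subgroup Δ) (hfin : Δ0.FiniteIndex) (hsplit : PreservesSplitting ρ Δ0)
    (T : Pt a b → Matrix (Fin a ⊕ Fin b) (Fin a ⊕ Fin b) ℂ)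
    (hT : IsPositiveClosedCurrent ρ T) :
    ∃ l : ℕ, 1 ≤ l ∧ ∀ x ∈ Dom a b, ∃ F, IsPluricanonical ρ l F ∧ F x ≠ 0 := by
  have h1 : H906.PC.HolAction ρ := ⟨hρ.maps, hρ.one, hρ.mul, hρ.hol⟩
  have h2 : H906.PC.IsCurrentForm T := by
    refine ⟨hT.integrable, hT.pos, fun χ hχ i j k => ?_⟩
    simp only [← partialZ_eq]
    exact hT.closed χ hχ.smooth hχ.compact hχ.supp i j k
  have h3 : H906.PC.Splits ρ Δ0 := by
    intro δ hδ x hx k i hki
    rw [← jac_eq]
    exact hsplit δ hδ x hx k i hki
  have h4 : H906.PC.InvFormAE ρ T := by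
    intro δ
    filter_upwards [hT.invariant δ] with x h hx
    rw [← jac_eq]
    exact h hx
  obtain ⟨l, hl, h5⟩ := H906.PC.semiampleC h1 hρ.properlyDiscontinuous hρ.cocompact hfin
    (H906.PC.exists_act h1 h3) h2 h4
  refine ⟨l, hl, fun x hx => ?_⟩
  obtain ⟨F, ⟨hF1, hF2⟩, hF3⟩ := h5 x hx
  refine ⟨F, ⟨hF1, fun δ y hy => ?_⟩, hF3⟩
  have h6 := hF2 δ y hy
  rw [← jac_eq, det_eq _ instDecidableEqSum] at h6
  exact h6

end Pool.Agent.H906.Old.SplitTangentBundleClassC
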